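import Mathlib

namespace Pool.Agent.Results.MP_5c4cbf_co.Third

open Finset

variable {n : ℕ}

def Intersecting (F : Set (Finset (Fin n))) : Prop := ∀ A ∈ F, ∀ B ∈ F, (A ∩ B).Nonempty

def MaxInt (F : Set (Finset (Fin n))) : Prop :=
  Intersecting F ∧ ∀ S, S ∉ F → ¬ Intersecting (insert S F)

/-- The matching `{m (i,false), m (i,true)}`, `i < k`, is shattered by `F`. -/
def Shatters (F : Set (Finset (Fin n))) {k : ℕ} (m : Fin k × Bool ↪ Fin n) : Prop :=
  ∀ c : Fin k → Bool, ∃ A ∈ F, A ∩ univ.map m = univ.image fun i => m (i, c i)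

lemma crit {F : Set (Finset (Fin n))} (hF : MaxInt F) (hn : 0 < n) {k : ℕ}
    (m : Fin k × Bool ↪ Fin n)
    (h : ∀ c : Fin k → Bool, ∀ A ∈ F, ¬ A ⊆ univ.image fun i => m (i, c i)) : Shatters F m := by
  intro c
  refine ⟨(univ.image fun i => m (i, !c i))ᶜ, ?_, ?_⟩
  · by_contra hS
    apply hF.2 _ hS
    have key : ∀ B ∈ F, ((univ.image fun i => m (i, !c i))ᶜ ∩ B).Nonempty := by
      intro B hB
      obtain ⟨x, hx, hx'⟩ := not_subset.1 (h (fun i => !c i) B hB)
      exact ⟨x, mem_inter.2 ⟨mem_compl.2 hx', hx⟩⟩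
    have self : ((univ.image fun i => m (i, !c i))ᶜ).Nonempty := by
      by_contra hne
      rw [not_nonempty_iff_eq_empty, compl_eq_empty_iff] at hne
      have : (⟨0, hn⟩ : Fin n) ∈ univ.image fun i => m (i, !c i) := hne ▸ mem_univ _
      obtain ⟨i, -, -⟩ := mem_image.1 this
      have : m (i, c i) ∈ univ.image fun i => m (i, !c i) := hne ▸ mem_univ _
      obtain ⟨j, -, hj⟩ := mem_image.1 this
      have := m.injective hj
      simp only [Prod.mk.injEq] at this
      obtain ⟨rfl, h2⟩ := this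
      simp at h2
    rintro A (rfl | hA) B (rfl | hB)
    · simpa using self
    · exact key B hB
    · rw [inter_comm]; exact key A hA
    · exact hF.1 A hA B hB
  · ext x
    simp only [mem_inter, mem_compl, mem_image, mem_univ, true_and, mem_map, not_exists]
    constructor
    · rintro ⟨h1, ⟨i, b⟩, rfl⟩
      refine ⟨i, ?_⟩
      by_cases hb : b = c i
      · rw [hb]
      · exact absurd (by rw [Bool.eq_not_iff.2 hb]) (h1 i)
    · rintro ⟨i, rfl⟩
      refine ⟨fun j hj => ?_, _, rfl⟩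
      have := m.injective hj
      simp only [Prod.mk.injEq] at this
      obtain ⟨rfl, h2⟩ := this
      simp at h2

theorem result (n k : ℕ) (hn : 0 < n) (hk : 3 * k ≤ n) (F : Set (Finset (Fin n)))
    (hF : MaxInt F) : ∃ m : Fin k × Bool ↪ Fin n, Shatters F m := by
  by_cases h : ∃ W ∈ F, W.card ≤ k
  · obtain ⟨W, hW, hc⟩ := h
    obtain ⟨m, hm⟩ := Function.Embedding.exists_of_card_le_finset (α := Fin k × Bool) (s := Wᶜ)
      (by simp [card_compl]; omega)
    refine ⟨m, crit hF hn m fun c A hA hs => ?_⟩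
    obtain ⟨x, hx⟩ := hF.1 A hA W hW
    obtain ⟨i, -, rfl⟩ := mem_image.1 (hs (mem_inter.1 hx).1)
    have : m (i, c i) ∈ Wᶜ := hm ⟨_, rfl⟩
    exact mem_compl.1 this (mem_inter.1 hx).2
  · obtain ⟨m⟩ := Function.Embedding.nonempty_of_card_le (α := Fin k × Bool) (β := Fin n)
      (by simp; omega)
    refine ⟨m, crit hF hn m fun c A hA hs => h ⟨A, hA, ?_⟩⟩
    exact (card_le_card hs).trans (card_image_le.trans (by simp))

end Pool.Agent.Results.MP_5c4cbf_co.Third
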